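import Pool.Agent.Y630.TF.Subst
import Pool.Agent.H630VC.FreeModel

/-! Real circuits without further gates as lists of functions. -/

set_option linter.unusedSectionVars false
set_option linter.unusedVariables false

namespace Pool.Agent.Y630.TF

open Finset Pool.Agent.W969.MC H630VC
open Pool.Agent.H560R2 (bit)

/-- all gates in a list -/
theorem rc_prog_aux {X I : Type} (inp : Set (I → ℝ)) (enc : I → X → Bool)
    (hbit : ∀ x, (fun i => bit (enc i) x) ∈ inp) (hconst : ∀ c : ℝ, (fun _ => c) ∈ inp)
    (C : RC X) (hT : C.T = ∅) :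
    ∀ k : ℕ, k ≤ C.S → ∃ L : List (I → ℝ), FProg inp L [] ∧ L.length ≤ 3 * k + 1 ∧
      (fun _ => (0 : ℝ)) ∈ L ∧ ∀ i : Fin C.S, i.val < k → (fun y => C.val (enc y) i) ∈ L := by
  intro k
  induction k with
  | zero =>
    intro _
    exact ⟨[fun _ => 0], FProg.input FProg.nil (hconst 0), by simp, by simp, fun i hi => by omega⟩
  | succ k ih =>
    intro hk
    obtain ⟨L, hL, hlen, h0, hall⟩ := ih (by omega)
    set i : Fin C.S := ⟨k, by omega⟩ with hi
    -- one wire
    have wire : ∀ (L0 : List (I → ℝ)), FProg inp L0 [] → (fun _ => (0 : ℝ)) ∈ L0 →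
        (∀ f ∈ L, f ∈ L0) → ∀ j : ℕ, ∃ L1 : List (I → ℝ), FProg inp L1 [] ∧
        L1.length ≤ L0.length + 1 ∧ (∀ f ∈ L0, f ∈ L1) ∧ ∃ g ∈ L1, ∀ (h : j < C.wd i) (y : I),
          g y = Sum.elim (bit (enc y)) (C.val (enc y)) (C.a i ⟨j, h⟩) := by
      intro L0 hL0 hz hsub j
      by_cases h : j < C.wd i
      · rcases ha : C.a i ⟨j, h⟩ with x | m
        · refine ⟨(fun y => bit (enc y) x) :: L0, FProg.input hL0 (hbit x), by simp,
            fun f hf => List.mem_cons_of_mem _ hf, _, List.mem_cons_self, ?_⟩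
          intro h' y
          rw [ha]
          rfl
        · refine ⟨L0, hL0, by omega, fun f hf => hf, _, hsub _ (hall m ?_), ?_⟩
          · have := C.htop i ⟨j, h⟩ m ha
            exact this
          · intro h' y
            rw [ha]
            rfl
      · exact ⟨L0, hL0, by omega, fun f hf => hf, _, hz, fun h' => absurd h' h⟩
    obtain ⟨L1, hL1, hl1, hs1, g0, hg0, he0⟩ := wire L hL h0 (fun f hf => hf) 0
    obtain ⟨L2, hL2, hl2, hs2, g1, hg1, he1⟩ := wire L1 hL1 (hs1 _ h0) hs1 1
    have hmon := C.hmon i (by rw [hT]; exact Finset.notMem_empty _)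
    set φ : ℝ → ℝ → ℝ := fun u v => C.op i (fun j => if j.val = 0 then u else v) with hφ
    have hφm : Mono2 φ := by
      intro a a' b b' h1 h2
      apply hmon.2
      intro j
      change (if j.val = 0 then a else b) ≤ (if j.val = 0 then a' else b')
      split_ifs
      · exact h1
      · exact h2
    refine ⟨(fun y => φ (g0 y) (g1 y)) :: L2, FProg.gate hL2 hφm (hs2 _ hg0) hg1, ?_,
      List.mem_cons_of_mem _ (hs2 _ (hs1 _ h0)), ?_⟩
    · rw [List.length_cons]
      omega
    · intro m hm
      by_cases hmk : m.val < k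
      · exact List.mem_cons_of_mem _ (hs2 _ (hs1 _ (hall m hmk)))
      · have hiv : i.val = k := rfl
        have hmi : m = i := Fin.ext (by rw [hiv]; omega)
        rw [hmi]
        have h5 : (fun y => C.val (enc y) i) = fun y => φ (g0 y) (g1 y) := by
          funext y
          rw [C.hval, hφ]
          congr 1
          funext j
          have hw := hmon.1
          have hj := j.isLt
          by_cases hj0 : j.val = 0
          · have hlt : 0 < C.wd i := by omega
            have hj' : j = ⟨0, hlt⟩ := Fin.ext hj0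
            simp only [hj0, if_true]
            rw [he0 hlt y, hj']
          · have hj1 : j.val = 1 := by omega
            have hlt : 1 < C.wd i := by omega
            have hj' : j = ⟨1, hlt⟩ := Fin.ext hj1
            simp only [hj0, if_false]
            rw [he1 hlt y, hj']
        rw [h5]
        exact List.mem_cons_self

/-- the circuit as a list, with the output turned into a bit -/
theorem rc_prog {X I : Type} (inp : Set (I → ℝ)) (enc : I → X → Bool)
    (hbit : ∀ x, (fun i => bit (enc i) x) ∈ inp) (hconst : ∀ c : ℝ, (fun _ => c) ∈ inp)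
    (C : RC X) (hT : C.T = ∅) :
    ∃ L : List (I → ℝ), FProg inp L [] ∧ L.length ≤ 3 * C.S + 2 ∧
      ∃ f ∈ L, ∀ y, 1 ≤ f y ↔ C.acc (enc y) := by
  classical
  obtain ⟨L, hL, hlen, -, hall⟩ := rc_prog_aux inp enc hbit hconst C hT C.S le_rfl
  have ho := hall C.o C.o.isLt
  set φ : ℝ → ℝ → ℝ := fun u _ => if C.τ ≤ u then 1 else 0 with hφ
  have hφm : Mono2 φ := by
    intro a a' b b' h1 _
    change (if C.τ ≤ a then (1 : ℝ) else 0) ≤ (if C.τ ≤ a' then 1 else 0)
    split_ifs with h2 h3
    · exact le_rfl
    · exact absurd (h2.trans h1) h3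
    · exact zero_le_one
    · exact le_rfl
  refine ⟨_ :: L, FProg.gate hL hφm ho ho, by rw [List.length_cons]; omega, _,
    List.mem_cons_self, ?_⟩
  intro y
  change 1 ≤ (if C.τ ≤ C.val (enc y) C.o then (1 : ℝ) else 0) ↔ C.τ ≤ C.val (enc y) C.o
  split_ifs with h
  · exact ⟨fun _ => h, fun _ => le_rfl⟩
  · constructor
    · intro h2
      exact absurd h2 (by norm_num)
    · intro h2
      exact absurd h2 h

end Pool.Agent.Y630.TF
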