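import Pool.Agent.W969.MC.Avg5

/-! Substitution of constants and variables for the inputs of a real circuit. -/

set_option linter.unusedSectionVars false
set_option linter.unusedVariables false

namespace Pool.Agent.Y630.TF

open Finset Pool.Agent.W969.MC
open Pool.Agent.H560R2 (bit)

/-- the literals as functions of the new inputs -/
def lsub {L X : Type} (σ : L → Option X) (c : L → Bool) (y : X → Bool) : L → Bool :=
  fun l => (σ l).elim (c l) y

/-- substitution -/
theorem subst {L X : Type} (C : RC L) (x0 : X) (σ : L → Option X) (c : L → Bool) :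
    ∃ C' : RC X, C'.size = C.size ∧ C'.free = C.free ∧ (C'.T = ∅ ↔ C.T = ∅) ∧
      ∀ y, C'.acc y ↔ C.acc (lsub σ c y) := by
  classical
  refine ⟨{
    S := C.S
    T := C.T
    wd := C.wd
    a := fun i j => Sum.elim (fun l => Sum.inl ((σ l).getD x0)) Sum.inr (C.a i j)
    op := fun i z => C.op i (fun j =>
      Sum.elim (fun l => (σ l).elim (if c l = true then (1 : ℝ) else 0) (fun _ => z j))
        (fun _ => z j) (C.a i j))
    θ := C.θ
    val := fun y => C.val (lsub σ c y)
    o := C.o
    τ := C.τ
    htop := ?_
    hmon := ?_
    hT := ?_
    hval := ?_ }, rfl, rfl, Iff.rfl, fun y => Iff.rfl⟩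
  · intro i j k hk
    apply C.htop i j k
    rcases hm : C.a i j with l | k'
    · rw [hm] at hk
      simp at hk
    · rw [hm] at hk
      simpa using hk
  · intro i hi
    refine ⟨(C.hmon i hi).1, ?_⟩
    intro z z' hz
    apply (C.hmon i hi).2
    intro j
    change Sum.elim (fun l => (σ l).elim (if c l = true then (1 : ℝ) else 0) (fun _ => z j))
        (fun _ => z j) (C.a i j) ≤
      Sum.elim (fun l => (σ l).elim (if c l = true then (1 : ℝ) else 0) (fun _ => z' j))
        (fun _ => z' j) (C.a i j)
    rcases C.a i j with l | k
    · simp only [Sum.elim_inl]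
      rcases σ l with _ | x
      · exact le_rfl
      · exact hz j
    · simp only [Sum.elim_inr]
      exact hz j
  · intro i hi z z' hz
    apply C.hT i hi
    intro j
    rcases C.a i j with l | k
    · simp only [Sum.elim_inl]
      rcases σ l with _ | x
      · exact Iff.rfl
      · exact hz j
    · simp only [Sum.elim_inr]
      exact hz j
  · intro y i
    change C.val (lsub σ c y) i = _
    rw [C.hval (lsub σ c y) i]
    congr 1
    funext j
    rcases hm : C.a i j with l | k
    · simp only [Sum.elim_inl]
      unfold lsub bit
      rcases hs : σ l with _ | x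
      · simp only [Option.elim_none, hs]
      · simp only [Option.elim_some, hs, hm, Option.getD_some, Sum.elim_inl]
    · simp only [Sum.elim_inr, hm]

/-- circuits without non-monotone gates are monotone -/
lemma val_mono {L : Type} (C : RC L) (hT : C.T = ∅) {x y : L → Bool} (h : x ≤ y) :
    ∀ i, C.val x i ≤ C.val y i := by
  have key : ∀ k : ℕ, ∀ i : Fin C.S, i.val < k → C.val x i ≤ C.val y i := by
    intro k
    induction k with
    | zero => intro i hi; omega
    | succ k ih =>
      intro i hi
      rw [C.hval x i, C.hval y i]
      apply (C.hmon i (by rw [hT]; exact Finset.notMem_empty _)).2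
      intro j
      change Sum.elim (bit x) (C.val x) (C.a i j) ≤ Sum.elim (bit y) (C.val y) (C.a i j)
      rcases hm : C.a i j with p | m
      · simp only [Sum.elim_inl]
        exact Pool.Agent.H560R2.bit_mono h p
      · simp only [Sum.elim_inr]
        apply ih
        have := C.htop i j m hm
        have h2 : (m : ℕ) < i := this
        omega
  intro i
  exact key (i.val + 1) i (Nat.lt_succ_self _)

lemma acc_mono {L : Type} (C : RC L) (hT : C.T = ∅) {x y : L → Bool} (h : x ≤ y)
    (hx : C.acc x) : C.acc y := le_trans hx (val_mono C hT h C.o)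

end Pool.Agent.Y630.TF
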