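import Pool.Agent.Y630.NW.Fault

/-! Monotone predicates of literals that tolerate faults: the transfer to monotone predicates. -/

set_option linter.unusedSectionVars false
set_option linter.unusedVariables false

namespace Pool.Agent.Y630.TF

open Finset Pool.Agent.Y630.NW

section

variable {E X G : Type} [Fintype E] [DecidableEq E] [Fintype X] [DecidableEq X] [Fintype G]
  [DecidableEq G] [AddCommGroup G] {D : ℕ} {R : Type} [Fintype R] [Nonempty R]

open Classical in
/-- the values of the literals: a negated literal is stuck at `0` if it is faulty -/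
noncomputable def lit (x : E → Bool) (Z : Set E) : E × Bool → Bool :=
  fun eb => if eb.2 = true then x eb.1 else !x eb.1 && !decide (eb.1 ∈ Z)

open Classical in
/-- the instance `y` at the places `τ` -/
noncomputable def host (slot : X × G ↪ E) (base : E → Bool) (τ : X → G) (y : X → Bool) :
    E → Bool :=
  fun e => base e || decide (∃ x, y x = true ∧ slot (x, τ x) = e)

/-- the literals as monotone functions of the instance -/
noncomputable def rlit (slot : X × G ↪ E) (base : E → Bool) (τ : X → G) (y : X → Bool) :
    E × Bool → Bool :=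
  fun eb => if eb.2 = true then host slot base τ y eb.1
    else !host slot base τ (fun _ => true) eb.1

lemma host_true {slot : X × G ↪ E} {base : E → Bool} {τ : X → G} {y : X → Bool} {e : E} :
    host slot base τ y e = true ↔ base e = true ∨ ∃ x, y x = true ∧ slot (x, τ x) = e := by
  classical
  unfold host
  rw [Bool.or_eq_true, decide_eq_true_iff]

lemma host_mono {slot : X × G ↪ E} {base : E → Bool} {τ : X → G} {y y' : X → Bool}
    (h : ∀ x, y x = true → y' x = true) (e : E) (he : host slot base τ y e = true) :
    host slot base τ y' e = true := by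
  rw [host_true] at he ⊢
  rcases he with he | ⟨x, h1, h2⟩
  · exact Or.inl he
  · exact Or.inr ⟨x, h x h1, h2⟩

/-- the main step -/
theorem transfer_yes (slot : X × G ↪ E) (base : E → Bool) (hD : 0 < D)
    (F : R → (E × Bool → Bool) → Prop)
    (hF : ∀ ρ u v, u ≤ v → F ρ u → F ρ v) (A0 g : ℝ)
    (hbad : (Fintype.card X : ℝ) * (1 - 1 / (D : ℝ)) ^ Fintype.card G ≤ g / 2) (y : X → Bool)
    (hyes : ∀ τ : X → G, (A0 + g) * (Fintype.card R * (D : ℝ) ^ Fintype.card E) ≤
      ({z : R × (E → Fin D) | F z.1 (lit (host slot base τ y) (Flt z.2))}.ncard : ℝ)) :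
    (A0 + g / 2) * Fintype.card (R × (X → G)) ≤
      ({ρτ : R × (X → G) | F ρτ.1 (rlit slot base ρτ.2 y)}.ncard : ℝ) := by
  classical
  have hDR : (0 : ℝ) < D := by exact_mod_cast hD
  have hhide : ∀ ρ : R, ∑ τ : X → G,
      ({f : E → Fin D | F ρ (lit (host slot base τ y) (Flt f))}.ncard : ℝ) ≤
      (D : ℝ) ^ Fintype.card E * ({τ : X → G | F ρ (rlit slot base τ y)}.ncard : ℝ) +
      ((Bad slot D).ncard : ℝ) * Fintype.card (X → G) := by
    intro ρ
    refine hide slot hD {x | y x = false} (fun τ Z => F ρ (lit (host slot base τ y) Z))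
      (fun τ => F ρ (rlit slot base τ y)) ?_ ?_ ?_
    · intro τ Z Z' hZ
      apply hF
      rintro ⟨e, b⟩
      rcases b with _ | _
      · unfold lit
        simp only [Bool.false_eq_true, if_false]
        by_cases he : e ∈ Z
        · have he' : e ∈ Z' := hZ he
          simp [he, he']
        · simp only [he, decide_false, Bool.not_false, Bool.and_true]
          exact Bool.and_le_left _ _
      · exact le_rfl
    · intro τ τ' Z hττ hacc
      have h1 : host slot base τ y = host slot base τ' y := by
        funext e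
        rw [Bool.eq_iff_iff, host_true, host_true]
        have h2 : ∀ x, y x = true → τ x = τ' x := by
          intro x hx
          apply hττ
          simp [hx]
        constructor
        · rintro (h | ⟨x, h3, h4⟩)
          · exact Or.inl h
          · exact Or.inr ⟨x, h3, by rw [← h2 x h3]; exact h4⟩
        · rintro (h | ⟨x, h3, h4⟩)
          · exact Or.inl h
          · exact Or.inr ⟨x, h3, by rw [h2 x h3]; exact h4⟩
      rw [← h1]
      exact hacc
    · intro τ
      apply hF
      rintro ⟨e, b⟩
      rcases b with _ | _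
      · simp only [lit, rlit, Bool.false_eq_true, if_false]
        rcases hx : host slot base τ (fun _ => true) e with _ | _
        · simp only [Bool.not_false]
          exact Bool.le_true _
        · by_cases he : ∃ x ∈ {x | y x = false}, slot (x, τ x) = e
          · have he' : e ∈ {e | ∃ x ∈ {x | y x = false}, slot (x, τ x) = e} := he
            simp only [he', decide_true, Bool.not_true, Bool.and_false]
            exact Bool.false_le _
          · have h2 : host slot base τ y e = true := by
              rw [host_true] at hx ⊢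
              rcases hx with hx | ⟨x, -, h4⟩
              · exact Or.inl hx
              · refine Or.inr ⟨x, ?_, h4⟩
                by_contra hcon
                apply he
                exact ⟨x, by simpa using hcon, h4⟩
            simp only [h2, Bool.not_true, Bool.false_and]
            exact Bool.false_le _
      · simp only [lit, rlit, if_true]
        exact le_rfl
  -- sum over the family
  set N : ℝ := (D : ℝ) ^ Fintype.card E with hN
  have hNpos : 0 < N := by rw [hN]; positivity
  set T0 : ℝ := ((Fintype.card (X → G) : ℕ) : ℝ) with hT0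
  have hT0pos : 0 < T0 := by
    rw [hT0]
    exact_mod_cast Fintype.card_pos
  have hRpos : (0 : ℝ) < Fintype.card R := by exact_mod_cast Fintype.card_pos
  have hb1 : ((Bad slot D).ncard : ℝ) ≤ g / 2 * N := by
    refine (ncard_bad slot hD).trans ?_
    exact mul_le_mul_of_nonneg_right hbad hNpos.le
  have hL : T0 * ((A0 + g) * (Fintype.card R * N)) ≤
      ∑ ρ : R, ∑ τ : X → G,
        ({f : E → Fin D | F ρ (lit (host slot base τ y) (Flt f))}.ncard : ℝ) := by
    rw [Finset.sum_comm]
    have h1 : ∀ τ : X → G, (A0 + g) * (Fintype.card R * N) ≤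
        ∑ ρ : R, ({f : E → Fin D | F ρ (lit (host slot base τ y) (Flt f))}.ncard : ℝ) := by
      intro τ
      refine (hyes τ).trans (le_of_eq ?_)
      have h2 : {z : R × (E → Fin D) | F z.1 (lit (host slot base τ y) (Flt z.2))} =
          ⋃ ρ : R, (fun f => (ρ, f)) '' {f : E → Fin D |
            F ρ (lit (host slot base τ y) (Flt f))} := by
        ext ⟨ρ, f⟩
        simp
      rw [h2]
      exact ncard_iUnion_prod _
    have h3 := Finset.sum_le_sum (fun τ (_ : τ ∈ univ) => h1 τ)
    rw [Finset.sum_const, nsmul_eq_mul, Finset.card_univ] at h3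
    exact h3
  have hU := Finset.sum_le_sum (fun (ρ : R) (_ : ρ ∈ univ) => hhide ρ)
  have h4 := hL.trans hU
  rw [Finset.sum_add_distrib, Finset.sum_const, nsmul_eq_mul, Finset.card_univ,
    ← Finset.mul_sum] at h4
  have h5 : (∑ ρ : R, ({τ : X → G | F ρ (rlit slot base τ y)}.ncard : ℝ)) =
      ({ρτ : R × (X → G) | F ρτ.1 (rlit slot base ρτ.2 y)}.ncard : ℝ) := by
    have h2 : {ρτ : R × (X → G) | F ρτ.1 (rlit slot base ρτ.2 y)} =
        ⋃ ρ : R, (fun f => (ρ, f)) '' {τ | F ρ (rlit slot base τ y)} := by
      ext ⟨ρ, f⟩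
      simp
    rw [h2]
    exact (ncard_iUnion_prod _).symm
  rw [h5] at h4
  set W : ℝ := ({ρτ : R × (X → G) | F ρτ.1 (rlit slot base ρτ.2 y)}.ncard : ℝ) with hW
  have h6 : N * ((A0 + g / 2) * (Fintype.card R * T0)) ≤ N * W := by
    have h7 : (Fintype.card R : ℝ) * (((Bad slot D).ncard : ℝ) * T0) ≤
        Fintype.card R * (g / 2 * N * T0) :=
      mul_le_mul_of_nonneg_left (mul_le_mul_of_nonneg_right hb1 hT0pos.le) hRpos.le
    have h8 : N * ((A0 + g / 2) * (Fintype.card R * T0)) =
      T0 * ((A0 + g) * (Fintype.card R * N)) - Fintype.card R * (g / 2 * N * T0) := by ring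
    rw [h8]
    linarith
  have h9 := le_of_mul_le_mul_left h6 hNpos
  rw [Fintype.card_prod]
  push_cast at h9 ⊢
  exact h9

theorem transfer_no (slot : X × G ↪ E) (base : E → Bool)
    (F : R → (E × Bool → Bool) → Prop)
    (hF : ∀ ρ u v, u ≤ v → F ρ u → F ρ v) (A0 : ℝ) (y : X → Bool)
    (hno : ∀ τ : X → G,
      ({ρ : R | F ρ (lit (host slot base τ y) ∅)}.ncard : ℝ) ≤ A0 * Fintype.card R) :
    ({ρτ : R × (X → G) | F ρτ.1 (rlit slot base ρτ.2 y)}.ncard : ℝ) ≤
      A0 * Fintype.card (R × (X → G)) := by
  classical
  have h1 : ∀ τ : X → G, ({ρ : R | F ρ (rlit slot base τ y)}.ncard : ℝ) ≤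
      A0 * Fintype.card R := by
    intro τ
    refine le_trans ?_ (hno τ)
    have h2 : {ρ : R | F ρ (rlit slot base τ y)} ⊆
        {ρ : R | F ρ (lit (host slot base τ y) ∅)} := by
      intro ρ hρ
      refine hF ρ _ _ ?_ hρ
      rintro ⟨e, b⟩
      rcases b with _ | _
      · simp only [lit, rlit, Bool.false_eq_true, if_false, Set.mem_empty_iff_false,
          decide_false, Bool.not_false, Bool.and_true]
        rcases hx : host slot base τ y e with _ | _
        · simp only [Bool.not_false]
          exact Bool.le_true _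
        · have h4 := host_mono (y' := fun _ => true) (fun x _ => rfl) e hx
          rw [h4]
      · simp only [lit, rlit, if_true]
        exact le_rfl
    exact_mod_cast Set.ncard_le_ncard h2 (Set.toFinite _)
  have h5 : ({ρτ : R × (X → G) | F ρτ.1 (rlit slot base ρτ.2 y)}.ncard : ℝ) =
      ∑ τ : X → G, ({ρ : R | F ρ (rlit slot base τ y)}.ncard : ℝ) := by
    have h2 : ∀ τ : X → G, ({ρ : R | F ρ (rlit slot base τ y)}.ncard : ℝ) =
        ∑ ρ : R, if F ρ (rlit slot base τ y) then (1 : ℝ) else 0 := by
      intro τ
      rw [Finset.sum_boole, Set.ncard_eq_toFinset_card']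
      congr 2
      ext ρ
      simp
    have h3 : ({ρτ : R × (X → G) | F ρτ.1 (rlit slot base ρτ.2 y)}.ncard : ℝ) =
        ∑ ρτ : R × (X → G), if F ρτ.1 (rlit slot base ρτ.2 y) then (1 : ℝ) else 0 := by
      rw [Finset.sum_boole, Set.ncard_eq_toFinset_card']
      congr 2
      ext ρτ
      simp
    rw [h3, Fintype.sum_prod_type, Finset.sum_comm]
    exact Finset.sum_congr rfl (fun τ _ => (h2 τ).symm)
  have h6 := Finset.sum_le_sum (fun τ (_ : τ ∈ univ) => h1 τ)
  rw [Finset.sum_const, nsmul_eq_mul, Finset.card_univ] at h6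
  refine (le_of_eq h5).trans (h6.trans (le_of_eq ?_))
  rw [Fintype.card_prod]
  push_cast
  ring

end

end Pool.Agent.Y630.TF
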